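import Pool.Agent.P.MP_207313_an.Daug

namespace Pool.Agent.Results.MP_207313_an.DaugavetFBL

open Pool.Agent.P.MP_207313_an

/-- The free Banach lattice generated by the two-dimensional space `ℓ₁²` is non-zero and has the
Daugavet property: `‖I + T‖ = 1 + ‖T‖` for every bounded rank-one operator `T`. -/
theorem result :
    ∃ (X : Type) (_ : NormedAddCommGroup X) (_ : NormedSpace ℝ X),
      IsFBL (PiLp 1 fun _ : Fin 2 => ℝ) X ∧ Nontrivial X ∧ HasDaugavet X :=
  ⟨FBL (PiLp 1 fun _ : Fin 2 => ℝ), inferInstance, inferInstance, isFBL, daugavet_l1⟩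

end Pool.Agent.Results.MP_207313_an.DaugavetFBL
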